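import Mathlib

set_option autoImplicit false

open Finset Polynomial

namespace Pool.Agent.Results.MP_0a8d91_nt.CommonDivisor

/-- the recursive bounds `c (1 + κ + ... + κ^(k-1))` -/
theorem bound_succ (c κ : ℝ) (k : ℕ) :
    c * ∑ i ∈ range (k + 1), κ ^ i = c + κ * (c * ∑ i ∈ range k, κ ^ i) := by
  rw [Finset.sum_range_succ']
  have : ∑ i ∈ range k, κ ^ (i + 1) = κ * ∑ i ∈ range k, κ ^ i := by
    rw [Finset.mul_sum]
    exact Finset.sum_congr rfl fun i _ => by ring
  rw [this]; ring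

theorem bound_mono (c κ : ℝ) (hc : 0 ≤ c) (hκ : 1 ≤ κ) {k l : ℕ} (h : k ≤ l) :
    c * ∑ i ∈ range k, κ ^ i ≤ c * ∑ i ∈ range l, κ ^ i := by
  apply mul_le_mul_of_nonneg_left _ hc
  apply Finset.sum_le_sum_of_subset_of_nonneg
  · exact Finset.range_mono h
  · intro i _ _
    positivity

/-- Let `f` be an integer polynomial with `L` nonzero coefficients, all of absolute value at most
`H`, and `f(0) ≠ 0`. Suppose `y^m = f(x)`, and that for some integer `z ≥ 2` and
some `α` we have `z ∣ y`, `z^α ∣ x` and `|x| ≤ z^(κ α)` (with a real `κ ≥ 1`). Then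
`m ≤ log₂(L H) (1 + κ + ... + κ^(L-1))`, or a nonempty subsum of the terms of `f(x)` vanishes. -/
theorem result (L H : ℕ) (κ : ℝ) (hκ : 1 ≤ κ) (f : Polynomial ℤ) (hL : f.support.card = L)
    (hH : ∀ i, |f.coeff i| ≤ (H : ℤ)) (h0 : f.coeff 0 ≠ 0) (m : ℕ) (x y : ℤ)
    (hxy : y ^ m = f.eval x) (z α : ℕ) (hz : 2 ≤ z) (hzy : (z : ℤ) ∣ y)
    (hzx : (z : ℤ) ^ α ∣ x) (hsize : ((|x| : ℤ) : ℝ) ≤ (z : ℝ) ^ (κ * α)) :
    (m : ℝ) ≤ Real.logb 2 (L * H) * ∑ i ∈ range L, κ ^ i ∨
      (∃ S ⊆ f.support, S.Nonempty ∧ ∑ i ∈ S, f.coeff i * x ^ i = 0) := by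
  classical
  by_contra hcon
  push Not at hcon
  obtain ⟨hm, hvan⟩ := hcon
  set c : ℝ := Real.logb 2 (L * H) with hc
  have h0s : 0 ∈ f.support := by rwa [Polynomial.mem_support_iff]
  have hLpos : 1 ≤ L := by rw [← hL]; exact Finset.card_pos.2 ⟨0, h0s⟩
  have hHpos : 1 ≤ H := by
    have h1 := hH 0
    have h2 : 0 < |f.coeff 0| := abs_pos.2 h0
    have : (0 : ℤ) < H := lt_of_lt_of_le h2 h1
    exact_mod_cast this
  have hLR : (1 : ℝ) ≤ L := by exact_mod_cast hLpos
  have hHR : (1 : ℝ) ≤ H := by exact_mod_cast hHpos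
  have hLH : (1 : ℝ) ≤ L * H := by nlinarith
  have hcnn : 0 ≤ c := Real.logb_nonneg (by norm_num) hLH
  have hzR : (2 : ℝ) ≤ z := by exact_mod_cast hz
  have hz1 : (1 : ℝ) < z := by linarith
  have hz0 : (0 : ℝ) < z := by linarith
  have hLHz : (L : ℝ) * H ≤ (z : ℝ) ^ c := by
    have h1 : (2 : ℝ) ^ c = L * H := Real.rpow_logb (by norm_num) (by norm_num) (by positivity)
    rw [← h1]
    exact Real.rpow_le_rpow (by norm_num) hzR hcnn
  let B : ℕ → ℝ := fun k => c * ∑ i ∈ range k, κ ^ i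
  have hB0 : B 0 = 0 := by simp [B]
  have hBsucc : ∀ k, B (k + 1) = c + κ * B k := fun k => bound_succ c κ k
  have hBmono : ∀ {k l : ℕ}, k ≤ l → B k ≤ B l := fun h => bound_mono c κ hcnn hκ h
  have hmB : B L < m := hm
  -- size of a partial sum
  have hpart : ∀ (k : ℕ) (E : Finset ℕ), E ⊆ f.support → (∀ i ∈ E, (α : ℝ) * i ≤ B k) →
      ((|∑ i ∈ E, f.coeff i * x ^ i| : ℤ) : ℝ) ≤ (z : ℝ) ^ (B (k + 1)) := by
    intro k E hE hEb
    have h1 : ((|∑ i ∈ E, f.coeff i * x ^ i| : ℤ) : ℝ) ≤ ∑ i ∈ E, (H : ℝ) * (z : ℝ) ^ (κ * B k) := by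
      push_cast
      refine (Finset.abs_sum_le_sum_abs _ _).trans (Finset.sum_le_sum fun i hi => ?_)
      rw [abs_mul, abs_pow]
      have h2 : |(f.coeff i : ℝ)| ≤ H := by exact_mod_cast hH i
      have h3 : |(x : ℝ)| ^ i ≤ (z : ℝ) ^ (κ * B k) := by
        have h4 : |(x : ℝ)| ≤ (z : ℝ) ^ (κ * α) := by exact_mod_cast hsize
        calc |(x : ℝ)| ^ i ≤ ((z : ℝ) ^ (κ * α)) ^ i := pow_le_pow_left₀ (abs_nonneg _) h4 i
          _ = (z : ℝ) ^ (κ * (α * i)) := by
              rw [← Real.rpow_natCast, ← Real.rpow_mul hz0.le]; congr 1; ring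
          _ ≤ _ := Real.rpow_le_rpow_of_exponent_le hz1.le
              (mul_le_mul_of_nonneg_left (hEb i hi) (by linarith))
      exact mul_le_mul h2 h3 (by positivity) (by positivity)
    refine h1.trans ?_
    rw [Finset.sum_const, nsmul_eq_mul, hBsucc, Real.rpow_add hz0, ← mul_assoc]
    have h5 : (E.card : ℝ) ≤ L := by
      rw [← hL]; exact_mod_cast Finset.card_le_card hE
    apply mul_le_mul_of_nonneg_right _ (by positivity)
    calc (E.card : ℝ) * H ≤ L * H := by gcongr
      _ ≤ _ := hLHz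
  -- main induction
  have key : ∀ k, k ≤ L → k + 1 ≤ (f.support.filter (fun i : ℕ => (α : ℝ) * (i : ℝ) ≤ B k)).card := by
    intro k
    induction k with
    | zero =>
      intro _
      refine Finset.card_pos.2 ⟨0, ?_⟩
      rw [Finset.mem_filter]
      exact ⟨h0s, by simp [hB0]⟩
    | succ k ih =>
      intro hk
      have ihk := ih (by omega)
      set E := f.support.filter (fun i : ℕ => (α : ℝ) * (i : ℝ) ≤ B k) with hE
      have hEsub : E ⊆ f.support := Finset.filter_subset _ _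
      have hEne : E.Nonempty := Finset.card_pos.1 (by omega)
      have hEb : ∀ i ∈ E, (α : ℝ) * i ≤ B k := fun i hi => (Finset.mem_filter.1 hi).2
      have hSne : ∑ i ∈ E, f.coeff i * x ^ i ≠ 0 := hvan E hEsub hEne
      have hSle := hpart k E hEsub hEb
      have hBkL : B (k + 1) ≤ B L := hBmono hk
      -- there is a new element
      have hnew : ∃ i ∈ f.support, i ∉ E ∧ (α : ℝ) * i ≤ B (k + 1) := by
        by_contra hno
        push Not at hno
        -- everything else is divisible by a large power of z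
        set M : ℕ := ⌊B (k + 1)⌋₊ + 1 with hM
        have hMgt : B (k + 1) < M := by rw [hM]; push_cast; exact Nat.lt_floor_add_one _
        have hMle : ∀ t : ℕ, B (k + 1) < t → M ≤ t := by
          intro t ht
          have hBnn : 0 ≤ B (k + 1) := by rw [← hB0]; exact hBmono (by omega)
          have := (Nat.floor_lt hBnn).2 ht
          omega
        have hdy : (z : ℤ) ^ M ∣ y ^ m := by
          have h1 : M ≤ m := hMle m (lt_of_le_of_lt hBkL hmB)
          exact (pow_dvd_pow _ h1).trans (pow_dvd_pow_of_dvd hzy m)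
        have hdx : ∀ i ∈ f.support \ E, (z : ℤ) ^ M ∣ f.coeff i * x ^ i := by
          intro i hi
          rw [Finset.mem_sdiff] at hi
          have h1 := hno i hi.1 hi.2
          have h2 : M ≤ α * i := hMle (α * i) (by push_cast; exact h1)
          have h3 : (z : ℤ) ^ (α * i) ∣ x ^ i := by
            rw [pow_mul]; exact pow_dvd_pow_of_dvd hzx i
          exact ((pow_dvd_pow _ h2).trans h3).mul_left _
        have hsplit : y ^ m = ∑ i ∈ E, f.coeff i * x ^ i + ∑ i ∈ f.support \ E, f.coeff i * x ^ i := by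
          rw [hxy, Polynomial.eval_eq_sum, Polynomial.sum_def, add_comm]
          exact (Finset.sum_sdiff hEsub).symm
        have hdS : (z : ℤ) ^ M ∣ ∑ i ∈ E, f.coeff i * x ^ i := by
          have h1 : (z : ℤ) ^ M ∣ ∑ i ∈ f.support \ E, f.coeff i * x ^ i := Finset.dvd_sum hdx
          have h2 := dvd_sub hdy h1
          rwa [hsplit, add_sub_cancel_right] at h2
        have h3 : (z : ℤ) ^ M ≤ |∑ i ∈ E, f.coeff i * x ^ i| :=
          Int.le_of_dvd (abs_pos.2 hSne) ((dvd_abs _ _).2 hdS)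
        have h4 : ((z : ℝ)) ^ (M : ℝ) ≤ (z : ℝ) ^ (B (k + 1)) := by
          rw [Real.rpow_natCast]
          exact le_trans (by exact_mod_cast h3) hSle
        have h5 := (Real.rpow_le_rpow_left_iff hz1).1 h4
        linarith
      obtain ⟨i, hi1, hi2, hi3⟩ := hnew
      have hsub : insert i E ⊆ f.support.filter (fun i : ℕ => (α : ℝ) * (i : ℝ) ≤ B (k + 1)) := by
        intro j hj
        rw [Finset.mem_insert] at hj
        rw [Finset.mem_filter]
        rcases hj with rfl | hj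
        · exact ⟨hi1, hi3⟩
        · exact ⟨hEsub hj, (hEb j hj).trans (hBmono (by omega))⟩
      calc k + 1 + 1 ≤ E.card + 1 := by omega
        _ = (insert i E).card := (Finset.card_insert_of_notMem hi2).symm
        _ ≤ _ := Finset.card_le_card hsub
  have h1 := key L le_rfl
  have h2 : (f.support.filter (fun i : ℕ => (α : ℝ) * (i : ℝ) ≤ B L)).card ≤ L := by
    rw [← hL]; exact Finset.card_le_card (Finset.filter_subset _ _)
  omega

end Pool.Agent.Results.MP_0a8d91_nt.CommonDivisor
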