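import Pool.Agent.Shorey.Poly3

namespace Pool.Agent.Results.MP_0a8d91_nt.LowerTerms

open Polynomial

/-- Power values of polynomials with a window of exponents near the degree, arbitrary lower terms
and an arbitrary constant term. -/
theorem result (H κ s : ℕ) (hs : 1 ≤ s) : ∃ C : ℕ, ∀ (f : ℤ[X]) (u l v : ℕ),
    (∀ i, |f.coeff i| ≤ H) → (f.leadingCoeff = 1 ∨ f.leadingCoeff = -1) →
    v < l → l ≤ u → u < f.natDegree →
    (∀ i, f.coeff i ≠ 0 → i = f.natDegree ∨ (l ≤ i ∧ i ≤ u) ∨ i ≤ v) →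
    (κ + 1) * (f.natDegree - l) ≤ 2 * κ * (f.natDegree - u) →
    ∀ (m g : ℕ) (x y : ℤ), (IsPrimePow g ∨ v = 0) → g ∣ m → g ∣ f.natDegree →
      C * f.natDegree ≤ g * (f.natDegree - v) → y ^ m = f.eval x →
      g ≤ C ∨ x.natAbs ^ (s * (2 * (f.natDegree - u) - (f.natDegree - l))) < (C * g) ^ (s + 1) ∨
        y ^ m = f.leadingCoeff * x ^ f.natDegree := by
  obtain ⟨C1, hC1, h1⟩ := Pool.Agent.Shorey.general2 H κ s hs
  obtain ⟨C2, h2⟩ := Pool.Agent.Shorey.general2' H κ s hs
  refine ⟨C1 + C2, ?_⟩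
  intro f u l v hc hlc hvl hlu hu hsupp hκ m g x y hg hgm hgN hv heq
  rcases hg with hg | hg
  · rw [isPrimePow_nat_iff] at hg
    obtain ⟨q, a, hq, ha, rfl⟩ := hg
    rcases h1 f u l v hc hlc hvl hlu hu hsupp hκ m q a x y hq ha hgm hgN
      ((Nat.mul_le_mul_right _ (by omega)).trans hv) heq with h3 | h3 | h3
    · left; omega
    · right; left
      refine lt_of_lt_of_le h3 (Nat.pow_le_pow_left ?_ _)
      exact Nat.mul_le_mul_right _ (by omega)
    · exact Or.inr (Or.inr h3)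
  · subst hg
    rcases h2 f u l hc hlc (by omega) hlu hu (by
      intro i hi
      rcases hsupp i hi with h | h | h
      · exact Or.inr (Or.inl h)
      · exact Or.inr (Or.inr h)
      · exact Or.inl (by omega)) hκ m g x y hgm hgN heq with h3 | h3 | h3
    · left; omega
    · right; left
      refine lt_of_lt_of_le h3 (Nat.pow_le_pow_left ?_ _)
      exact Nat.mul_le_mul_right _ (by omega)
    · exact Or.inr (Or.inr h3)

end Pool.Agent.Results.MP_0a8d91_nt.LowerTerms
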