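import Pool.Agent.Shorey.Poly3

namespace Pool.Agent.Results.MP_0a8d91_nt.TopWindow

open Polynomial

/-- Power values of polynomials whose middle exponents lie in a window near the degree. -/
theorem result (H κ : ℕ) : ∃ C : ℕ, ∀ (f : ℤ[X]) (u l : ℕ),
    (∀ i, |f.coeff i| ≤ H) → (f.leadingCoeff = 1 ∨ f.leadingCoeff = -1) →
    (f.coeff 0 = 1 ∨ f.coeff 0 = -1) → 1 ≤ l → l ≤ u → u < f.natDegree →
    (∀ i, f.coeff i ≠ 0 → i = 0 ∨ i = f.natDegree ∨ (l ≤ i ∧ i ≤ u)) →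
    (κ + 1) * (f.natDegree - l) ≤ 2 * κ * (f.natDegree - u) →
    ∀ (m g : ℕ) (x y : ℤ), 1 ≤ m → 1 < |y| → y ^ m = f.eval x → g ∣ m → g ∣ f.natDegree →
      (Odd g ∨ f.coeff 0 = 1 ∨ 2 + (f.natDegree - l) ≤ 2 * (f.natDegree - u)) →
      g ≤ max C (Nat.log 2 (H * f.support.card)) :=
  Pool.Agent.Shorey.generalA H κ

end Pool.Agent.Results.MP_0a8d91_nt.TopWindow
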