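import Pool.Agent.Shorey.Poly3

namespace Pool.Agent.Results.MP_0a8d91_nt.UnitLowerTerms

open Polynomial

/-- Power values of polynomials with constant term `1` or `-1`, a window of exponents near the
degree, and lower exponents at least two thirds of the degree. -/
theorem result (H κ : ℕ) : ∃ C : ℕ, ∀ (f : ℤ[X]) (u l v w : ℕ),
    (∀ i, |f.coeff i| ≤ H) → (f.leadingCoeff = 1 ∨ f.leadingCoeff = -1) →
    (f.coeff 0 = 1 ∨ f.coeff 0 = -1) → v < l → l ≤ u → u < f.natDegree →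
    (∀ i, f.coeff i ≠ 0 → i = f.natDegree ∨ (l ≤ i ∧ i ≤ u) ∨ i ≤ v) →
    (∀ i, f.coeff i ≠ 0 → i = 0 ∨ w ≤ i) → 2 * f.natDegree ≤ 3 * w →
    (κ + 1) * (f.natDegree - l) ≤ 2 * κ * (f.natDegree - u) →
    2 + (f.natDegree - l) ≤ 2 * (f.natDegree - u) →
    ∀ (m g : ℕ) (x y : ℤ), IsPrimePow g → 1 ≤ m → g ∣ m → g ∣ f.natDegree →
      C * f.natDegree ≤ g * (f.natDegree - v) → 1 < |y| → y ^ m = f.eval x →
      g ≤ max C (Nat.log 2 (H * f.support.card)) := by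
  obtain ⟨C, h⟩ := Pool.Agent.Shorey.general3_big H κ
  refine ⟨C, ?_⟩
  intro f u l v w hc hlc hc0 hvl hlu hu hsupp hsupp2 hwN hκ hs0 m g x y hg hm hgm hgN hv hy heq
  rw [isPrimePow_nat_iff] at hg
  obtain ⟨q, a, hq, ha, rfl⟩ := hg
  rcases Nat.lt_or_ge x.natAbs 2 with hx | hx
  · apply le_max_of_le_right
    exact (Nat.le_of_dvd hm hgm).trans (Pool.Agent.Shorey.small_arg H f hc m x y hx hy heq)
  · apply le_max_of_le_left
    exact h f u l v w hc hlc hc0 hvl hlu hu hsupp hsupp2 hwN hκ hs0 m q a x y hq ha hm hgm hgN hv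
      hx hy heq

end Pool.Agent.Results.MP_0a8d91_nt.UnitLowerTerms
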